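import Pool.Agent.MP_6a6beb_pr.Mg.Main

open Filter Topology Pool.Agent.MP_6a6beb_pr

/-- `R_{K,n}(c) → φ(c)` in probability, `n → ∞` first and then `K → ∞`. -/
theorem Pool.Agent.Results.MP_6a6beb_pr.Convergence.result (c δ : ℝ) (hc : 1 < c) (hδ : 0 < δ) :
    Tendsto (fun K : ℕ => limsup (fun n : ℕ => deviationProb c δ K n) atTop) atTop (𝓝 0) :=
  main c δ hc hδ
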